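import Mathlib.Data.EReal.Basic
import Mathlib.Data.EReal.Operations
import Mathlib.Order.ConditionallyCompleteLattice.Basic
import Mathlib.Tactic.Linarith

set_option autoImplicit false

/-!
Metrics on `ℕ` which satisfy the four point condition; one-point extensions and their transport
along partial isometries.
-/

namespace Pool.Agent.H2.TR

/-- tree metrics: the four point condition (it contains the triangle inequality) -/
structure TM (d : ℕ → ℕ → ℝ) : Prop where
  zero : ∀ u v, d u v = 0 ↔ u = v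
  symm : ∀ u v, d u v = d v u
  four : ∀ u v w z, d u v + d w z ≤ max (d u w + d v z) (d u z + d v w)

variable {d : ℕ → ℕ → ℝ}

theorem TM.self (h : TM d) (u : ℕ) : d u u = 0 := (h.zero u u).2 rfl

theorem TM.tri (h : TM d) (u v w : ℕ) : d u v ≤ d u w + d v w := by
  have h1 := h.four u v w w
  rw [h.self, max_self] at h1
  linarith

theorem TM.nonneg (h : TM d) (u v : ℕ) : 0 ≤ d u v := by
  have h1 := h.tri u u v
  rw [h.self] at h1
  linarith

/-- one-point extensions -/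
structure OP (d : ℕ → ℕ → ℝ) (f : ℕ → ℝ) : Prop where
  ge : ∀ u v, d u v ≤ f u + f v
  four : ∀ u v w, d u w + f v ≤ max (d u v + f w) (d v w + f u)

/-! ### suprema -/

open Classical in
/-- the supremum of `g` on `S` -/
noncomputable def sp {ι : Type} (S : ι → Prop) (g : ι → ℝ) : ℝ :=
  (⨆ i, if S i then ((g i : ℝ) : EReal) else ⊥).toReal

theorem sp_lub {ι : Type} {S : ι → Prop} {g : ι → ℝ} {i0 : ι} (h0 : S i0) {b : ℝ}
    (hb : ∀ i, S i → g i ≤ b) :
    (∀ i, S i → g i ≤ sp S g) ∧ ∀ c, (∀ i, S i → g i ≤ c) → sp S g ≤ c := by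
  classical
  have hle : ∀ c : ℝ, (∀ i, S i → g i ≤ c) →
      (⨆ i, if S i then ((g i : ℝ) : EReal) else ⊥) ≤ ((c : ℝ) : EReal) := by
    intro c hc
    refine iSup_le fun i => ?_
    split_ifs with h
    · exact EReal.coe_le_coe_iff.2 (hc i h)
    · exact bot_le
  have hge : ∀ i, S i → ((g i : ℝ) : EReal) ≤ ⨆ i, if S i then ((g i : ℝ) : EReal) else ⊥ := by
    intro i hi
    refine le_trans ?_ (le_iSup _ i)
    rw [if_pos hi]
  have h1 : (⨆ i, if S i then ((g i : ℝ) : EReal) else ⊥) ≠ ⊤ := by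
    intro h
    have := hle b hb
    rw [h] at this
    exact absurd this (by simp)
  have h2 : (⨆ i, if S i then ((g i : ℝ) : EReal) else ⊥) ≠ ⊥ := by
    intro h
    have := hge i0 h0
    rw [h] at this
    exact absurd this (by simp)
  have e : ((sp S g : ℝ) : EReal) = ⨆ i, if S i then ((g i : ℝ) : EReal) else ⊥ :=
    EReal.coe_toReal h1 h2
  constructor
  · intro i hi
    rw [← EReal.coe_le_coe_iff, e]
    exact hge i hi
  · intro c hc
    rw [← EReal.coe_le_coe_iff, e]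
    exact hle c hc

/-- approximation of the supremum -/
theorem sp_app {ι : Type} {S : ι → Prop} {g : ι → ℝ} {i0 : ι} (h0 : S i0) {b : ℝ}
    (hb : ∀ i, S i → g i ≤ b) {ε : ℝ} (hε : 0 < ε) : ∃ i, S i ∧ sp S g - ε < g i := by
  by_contra hcon
  push Not at hcon
  have := (sp_lub h0 hb).2 (sp S g - ε) hcon
  linarith

/-! ### transport along a relation -/

/-- twice the distance to the hull of the range of `R`, negative -/
noncomputable def cc (d : ℕ → ℕ → ℝ) (R : ℕ → ℕ → Prop) (f : ℕ → ℝ) : ℝ :=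
  sp (fun i : (ℕ × ℕ) × (ℕ × ℕ) => R i.1.1 i.1.2 ∧ R i.2.1 i.2.2)
    fun i => d i.1.2 i.2.2 - f i.1.2 - f i.2.2

open Classical in
/-- the one-point extension `f` transported along `R` -/
noncomputable def st (d : ℕ → ℕ → ℝ) (R : ℕ → ℕ → Prop) (f : ℕ → ℝ) (x : ℕ) : ℝ :=
  if ∃ u v, R u v then
    sp (fun i : ℕ × ℕ => R i.1 i.2) (fun i => d x i.1 - f i.2) - cc d R f
  else f x

/-- partial isometries -/
def PI (d : ℕ → ℕ → ℝ) (R : ℕ → ℕ → Prop) : Prop :=
  ∀ u v u' v', R u v → R u' v' → d u u' = d v v'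

section star

variable {R : ℕ → ℕ → Prop} {f : ℕ → ℝ} (h : TM d) (hf : OP d f) (hR : PI d R) {u0 v0 : ℕ}
  (h0 : R u0 v0)

include hf h0 in
theorem cc_lub :
    (∀ u v u' v', R u v → R u' v' → d v v' - f v - f v' ≤ cc d R f) ∧ cc d R f ≤ 0 ∧
    ∀ ε, 0 < ε → ∃ u v u' v', R u v ∧ R u' v' ∧ cc d R f - ε < d v v' - f v - f v' := by
  have hb : ∀ i : (ℕ × ℕ) × (ℕ × ℕ), (R i.1.1 i.1.2 ∧ R i.2.1 i.2.2) →
      d i.1.2 i.2.2 - f i.1.2 - f i.2.2 ≤ 0 := by
    intro i _
    have := hf.ge i.1.2 i.2.2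
    linarith
  have h1 := sp_lub (S := fun i : (ℕ × ℕ) × (ℕ × ℕ) => R i.1.1 i.1.2 ∧ R i.2.1 i.2.2)
    (g := fun i => d i.1.2 i.2.2 - f i.1.2 - f i.2.2) (i0 := ((u0, v0), (u0, v0))) ⟨h0, h0⟩ hb
  refine ⟨fun u v u' v' k k' => h1.1 ((u, v), (u', v')) ⟨k, k'⟩, h1.2 0 hb, fun ε hε => ?_⟩
  obtain ⟨i, hi, hi'⟩ := sp_app (S := fun i : (ℕ × ℕ) × (ℕ × ℕ) => R i.1.1 i.1.2 ∧ R i.2.1 i.2.2)
    (g := fun i => d i.1.2 i.2.2 - f i.1.2 - f i.2.2) (i0 := ((u0, v0), (u0, v0))) ⟨h0, h0⟩ hb hε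
  exact ⟨_, _, _, _, hi.1, hi.2, hi'⟩

include h hf hR h0 in
theorem st_lub (x : ℕ) :
    (∀ u v, R u v → d x u - f v - cc d R f ≤ st d R f x) ∧
    ∀ ε, 0 < ε → ∃ u v, R u v ∧ st d R f x - ε < d x u - f v - cc d R f := by
  have hb : ∀ i : ℕ × ℕ, R i.1 i.2 → d x i.1 - f i.2 ≤ d x u0 + f v0 := by
    intro i hi
    have h1 := hf.ge i.2 v0
    have h2 := h.tri x i.1 u0
    rw [hR _ _ _ _ hi h0] at h2
    linarith
  have e : st d R f x = sp (fun i : ℕ × ℕ => R i.1 i.2) (fun i => d x i.1 - f i.2) - cc d R f :=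
    if_pos ⟨u0, v0, h0⟩
  constructor
  · intro u v k
    rw [e]
    have := (sp_lub (S := fun i : ℕ × ℕ => R i.1 i.2) (g := fun i => d x i.1 - f i.2)
      (i0 := (u0, v0)) h0 hb).1 (u, v) k
    have h2 : d x u - f v ≤ sp (fun i : ℕ × ℕ => R i.1 i.2) fun i => d x i.1 - f i.2 := this
    linarith
  · intro ε hε
    obtain ⟨i, hi, hi'⟩ := sp_app (S := fun i : ℕ × ℕ => R i.1 i.2)
      (g := fun i => d x i.1 - f i.2) (i0 := (u0, v0)) h0 hb hε
    refine ⟨i.1, i.2, hi, ?_⟩
    rw [e]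
    linarith

include h hf hR in
/-- the values on the domain -/
theorem st_val {u v : ℕ} (k : R u v) : st d R f u = f v := by
  obtain ⟨c1, c2, c3⟩ := cc_lub hf k
  obtain ⟨s1, s2⟩ := st_lub h hf hR k u
  refine le_antisymm ?_ ?_
  · refine le_of_forall_pos_le_add fun ε hε => ?_
    obtain ⟨u1, v1, k1, k2⟩ := s2 ε hε
    have h1 := c1 u v u1 v1 k k1
    rw [hR _ _ _ _ k k1] at k2
    linarith
  · refine le_of_forall_pos_le_add fun ε hε => ?_
    obtain ⟨u1, v1, u2, v2, k1, k2, k3⟩ := c3 ε hε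
    have h1 := s1 u1 v1 k1
    have h2 := s1 u2 v2 k2
    rw [hR _ _ _ _ k k1] at h1
    rw [hR _ _ _ _ k k2] at h2
    have h3 := hf.four v1 v v2
    rw [h.symm v1 v] at h3
    rcases le_max_iff.1 h3 with h4 | h4 <;> linarith

include h hf hR in
/-- the transported extension is a one-point extension -/
theorem op_st : OP d (st d R f) := by
  by_cases hne : ∃ u v, R u v
  · obtain ⟨u0, v0, h0⟩ := hne
    obtain ⟨c1, c2, c3⟩ := cc_lub hf h0
    have s := fun x => st_lub h hf hR h0 x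
    constructor
    · intro x y
      refine le_of_forall_pos_le_add fun ε hε => ?_
      obtain ⟨u1, v1, u2, v2, k1, k2, k3⟩ := c3 ε hε
      have a1 := (s x).1 u1 v1 k1
      have a2 := (s x).1 u2 v2 k2
      have b1 := (s y).1 u1 v1 k1
      have b2 := (s y).1 u2 v2 k2
      have h3 := h.four x y u1 u2
      rw [hR _ _ _ _ k1 k2] at h3
      rcases le_max_iff.1 h3 with h4 | h4 <;> linarith
    · intro x y z
      refine le_of_forall_pos_le_add fun ε hε => ?_
      obtain ⟨u1, v1, k1, k2⟩ := (s y).2 ε hε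
      have a1 := (s x).1 u1 v1 k1
      have a2 := (s z).1 u1 v1 k1
      have h3 := h.four x z y u1
      rw [h.symm z y] at h3
      rw [← sub_le_iff_le_add]
      rcases le_max_iff.1 h3 with h4 | h4
      · exact le_max_of_le_left (by linarith)
      · exact le_max_of_le_right (by linarith)
  · have e : st d R f = f := by
      funext x
      exact if_neg hne
    rw [e]
    exact hf

end star

/-! ### the equivalence relations -/

/-- the equivalence relations given by a family of one-point extensions -/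
def Er {ι : Type} (d : ℕ → ℕ → ℝ) (F : ι → ℕ → ℝ) (r : ℚ) (u v : ℕ) : Prop :=
  u = v ∨ ∃ s : ℚ, r < s ∧ ∀ i, (s : ℝ) + d u v ≤ F i u + F i v

variable {ι : Type} {F : ι → ℕ → ℝ}

theorem er_refl (r : ℚ) (u : ℕ) : Er d F r u u := Or.inl rfl

theorem er_symm (h : TM d) {r : ℚ} {u v : ℕ} (he : Er d F r u v) : Er d F r v u := by
  rcases he with he | ⟨s, hs, hc⟩
  · exact Or.inl he.symm
  · refine Or.inr ⟨s, hs, fun i => ?_⟩
    have := hc i
    rw [h.symm v u]
    linarith

theorem er_trans (hF : ∀ i, OP d (F i)) {r : ℚ} {u v w : ℕ}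
    (he : Er d F r u v) (he' : Er d F r v w) : Er d F r u w := by
  rcases he with he | ⟨s, hs, hc⟩
  · rw [he]
    exact he'
  · rcases he' with he' | ⟨s', hs', hc'⟩
    · rw [← he']
      exact Or.inr ⟨s, hs, hc⟩
    · refine Or.inr ⟨min s s', lt_min hs hs', fun i => ?_⟩
      have h1 := hc i
      have h2 := hc' i
      have h3 := (hF i).four u v w
      have h4 : ((min s s' : ℚ) : ℝ) ≤ s := by exact_mod_cast min_le_left s s'
      have h5 : ((min s s' : ℚ) : ℝ) ≤ s' := by exact_mod_cast min_le_right s s'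
      rcases le_max_iff.1 h3 with h6 | h6 <;> linarith

theorem er_le {r r' : ℚ} (hr : r ≤ r') {u v : ℕ} (he : Er d F r' u v) : Er d F r u v := by
  rcases he with he | ⟨s, hs, hc⟩
  · exact Or.inl he
  · exact Or.inr ⟨s, lt_of_le_of_lt hr hs, hc⟩

/-- invariance -/
theorem er_iso (h : TM d) {r : ℚ} {R : ℕ → ℕ → Prop} (hR : PI d R)
    (h1 : ∀ i, ∃ j, ∀ u v, R u v → F j u = F i v) (h2 : ∀ i, ∃ j, ∀ u v, R u v → F j v = F i u)
    {u v u' v' : ℕ} (k : R u v) (k' : R u' v') : Er d F r u u' ↔ Er d F r v v' := by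
  have hinj : u = u' ↔ v = v' := by
    rw [← h.zero, ← h.zero, hR u v u' v' k k']
  constructor
  · rintro (he | ⟨s, hs, hc⟩)
    · exact Or.inl (hinj.1 he)
    · refine Or.inr ⟨s, hs, fun i => ?_⟩
      obtain ⟨j, hj⟩ := h1 i
      rw [← hj u v k, ← hj u' v' k', ← hR _ _ _ _ k k']
      exact hc j
  · rintro (he | ⟨s, hs, hc⟩)
    · exact Or.inl (hinj.2 he)
    · refine Or.inr ⟨s, hs, fun i => ?_⟩
      obtain ⟨j, hj⟩ := h2 i
      rw [← hj u v k, ← hj u' v' k', hR _ _ _ _ k k']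
      exact hc j

/-- the metric is determined by the one-point extensions and the equivalence relations -/
theorem det_le {d' : ℕ → ℕ → ℝ} (h : TM d) (h' : TM d') (i0 : ι) (hF : ∀ i, OP d (F i))
    (he : ∀ r : ℚ, ∀ u v, Er d' F r u v → Er d F r u v) (u v : ℕ) :
    d u v ≤ d' u v := by
  by_contra hcon
  push Not at hcon
  have huv : u ≠ v := by
    rintro rfl
    rw [h.self, h'.self] at hcon
    exact lt_irrefl _ hcon
  have hup : ∀ i : ι, True → -(F i u + F i v) ≤ - d u v := by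
    intro i _
    have := (hF i).ge u v
    linarith
  obtain ⟨s1, s2⟩ := sp_lub (S := fun _ : ι => True) (g := fun i => -(F i u + F i v)) (i0 := i0)
    trivial hup
  obtain ⟨r, hr1, hr2⟩ := exists_rat_btwn (show -sp (fun _ : ι => True)
    (fun i => -(F i u + F i v)) - d u v < -sp (fun _ : ι => True)
    (fun i => -(F i u + F i v)) - d' u v by linarith)
  obtain ⟨t, ht1, ht2⟩ := exists_rat_btwn hr2
  have hE : Er d' F r u v := by
    refine Or.inr ⟨t, by exact_mod_cast ht1, fun i => ?_⟩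
    have := s1 i trivial
    linarith
  rcases he r u v hE with h1 | ⟨s, hs1, hs2⟩
  · exact huv h1
  · have h2 := s2 (-(s + d u v)) fun i _ => by
      have := hs2 i
      linarith
    have h3 : (r : ℝ) < s := by exact_mod_cast hs1
    linarith

end Pool.Agent.H2.TR
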