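import Mathlib.MeasureTheory.Constructions.BorelSpace.Real
import Pool.Agent.H2.TR.Geo
import Pool.Agent.H2.VC.GoodOf
import Pool.Graph.R_seed8.W878.VC.Spc

set_option autoImplicit false

/-!
The dichotomy for countable spaces with a tree metric and partial isometries.
-/

namespace Pool.Agent.H2.TR

open Set MeasureTheory
open Pool.Agent.W889.VC (BP)
open Pool.Agent.W878.VC (aU act_U ana_U uiso_iff dicho_U par a2)
open Pool.Agent.H533R2.VO (RS)
open Pool.Agent.H533R2.VS (US UIso UDich VCu)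
open Pool.Agent.H2.VC (pr comp_pr Kd VG good_of vcu bn Lr Eqv Fin2)

/-- structures with a parameter -/
abbrev YP : Type := US a2 × (Fin 1 → ℕ)

/-- the relations -/
def Rx (x : US a2) (i u v : ℕ) : Prop := x.1 i (pr u v) = true

/-- the metric -/
noncomputable def dd (q : ℕ → ℚ) (x : US a2) (u v : ℕ) : ℝ :=
  -sp (fun i => Rx x (2 * i) u v) fun i => -(q i : ℝ)

/-- the relations and their inverses -/
def Rj (x : US a2) (j : ℕ × Bool) (u v : ℕ) : Prop :=
  (j.2 = true ∧ Rx x (2 * j.1 + 1) u v) ∨ (j.2 = false ∧ Rx x (2 * j.1 + 1) v u)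

/-- the one-point extensions -/
noncomputable def ff (q : ℕ → ℚ) (y : YP) : List (ℕ × Bool) → ℕ → ℝ
  | [] => fun u => dd q y.1 u (y.2 0)
  | j :: w => st (dd q y.1) (Rj y.1 j) (ff q y w)

/-! ### measurability -/

section meas

variable {Y : Type} [MeasurableSpace Y]

theorem m_sp {ι : Type} [Countable ι] {S : Y → ι → Prop} {g : Y → ι → ℝ}
    (hS : ∀ i, BP fun y => S y i) (hg : ∀ i, Measurable fun y => g y i) :
    Measurable fun y => sp (S y) (g y) := by
  classical
  unfold sp
  refine Measurable.ereal_toReal (Measurable.iSup fun i => ?_)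
  exact Measurable.ite (hS i) ((hg i).coe_real_ereal) measurable_const

theorem m_st {d : Y → ℕ → ℕ → ℝ} {R : Y → ℕ → ℕ → Prop} {f : Y → ℕ → ℝ}
    (hd : ∀ u v, Measurable fun y => d y u v) (hR : ∀ u v, BP fun y => R y u v)
    (hf : ∀ u, Measurable fun y => f y u) (x : ℕ) :
    Measurable fun y => st (d y) (R y) (f y) x := by
  classical
  unfold st
  refine Measurable.ite (BP.ex fun u => BP.ex fun v => hR u v) (Measurable.sub ?_ ?_) (hf x)
  · exact m_sp (fun i => hR _ _) fun i => (hd _ _).sub (hf _)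
  · unfold cc
    exact m_sp (fun i => (hR _ _).and (hR _ _)) fun i => ((hd _ _).sub (hf _)).sub (hf _)

theorem bp_lt {f g : Y → ℝ} (hf : Measurable f) (hg : Measurable g) : BP fun y => f y < g y :=
  measurableSet_lt hf hg

theorem bp_le {f g : Y → ℝ} (hf : Measurable f) (hg : Measurable g) : BP fun y => f y ≤ g y :=
  measurableSet_le hf hg

theorem bp_eq {f g : Y → ℝ} (hf : Measurable f) (hg : Measurable g) : BP fun y => f y = g y :=
  measurableSet_eq_fun hf hg

theorem bp_er {ι : Type} [Countable ι] {d : Y → ℕ → ℕ → ℝ} {F : Y → ι → ℕ → ℝ}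
    (hd : ∀ u v, Measurable fun y => d y u v) (hF : ∀ i u, Measurable fun y => F y i u)
    (r : ℚ) (u v : ℕ) : BP fun y => Er (d y) (F y) r u v := by
  have h : BP fun y => u = v ∨ ∃ s : ℚ, r < s ∧ ∀ i : ι, (s : ℝ) + d y u v ≤ F y i u + F y i v := by
    refine (BP.const _).or (BP.ex fun s : ℚ => (BP.const _).and (BP.all fun i : ι => ?_))
    exact bp_le (measurable_const.add (hd _ _)) ((hF _ _).add (hF _ _))
  exact h

end meas

theorem bp_rx (i u v : ℕ) : BP fun x : US a2 => Rx x i u v := by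
  have h1 : Measurable fun x : US a2 => x.1 i (pr u v) :=
    (measurable_pi_apply (pr u v)).comp ((measurable_pi_apply i).comp measurable_fst)
  exact h1 (measurableSet_singleton true)

theorem m_dd (q : ℕ → ℚ) (u v : ℕ) : Measurable fun x : US a2 => dd q x u v := by
  unfold dd
  exact (m_sp (Y := US a2) (ι := ℕ) (S := fun x i => Rx x (2 * i) u v)
    (g := fun _ i => -(q i : ℝ)) (fun i => bp_rx _ _ _) fun i => measurable_const).neg

theorem bp_rj (j : ℕ × Bool) (u v : ℕ) : BP fun x : US a2 => Rj x j u v :=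
  ((BP.const _).and (bp_rx _ _ _)).or ((BP.const _).and (bp_rx _ _ _))

theorem m_dd' (q : ℕ → ℚ) (u v : ℕ) : Measurable fun y : YP => dd q y.1 u v :=
  (m_dd q u v).comp measurable_fst

theorem m_par : Measurable fun y : YP => y.2 0 := (measurable_pi_apply 0).comp measurable_snd

theorem m_ff (q : ℕ → ℚ) (w : List (ℕ × Bool)) : ∀ u, Measurable fun y : YP => ff q y w u := by
  induction w with
  | nil =>
    intro u
    have h1 : Measurable fun z : ℕ × YP => dd q z.2.1 u z.1 :=
      measurable_from_prod_countable_right fun n => m_dd' q u n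
    exact h1.comp (m_par.prodMk measurable_id)
  | cons j w ih =>
    intro u
    exact m_st (fun u v => m_dd' q u v) (fun u v => measurable_fst (bp_rj j u v)) ih u

/-! ### equivariance -/

theorem sp_eq {ι : Type} (e : ι ≃ ι) {S S' : ι → Prop} {g g' : ι → ℝ}
    (hS : ∀ i, S' (e i) ↔ S i) (hg : ∀ i, g' (e i) = g i) : sp S' g' = sp S g := by
  classical
  unfold sp
  congr 1
  refine (e.iSup_congr fun i => ?_).symm
  by_cases h : S i
  · rw [if_pos h, if_pos ((hS i).2 h), hg]
  · rw [if_neg h, if_neg fun h' => h ((hS i).1 h')]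

theorem st_eq (σ : Equiv.Perm ℕ) {d d' : ℕ → ℕ → ℝ} {R R' : ℕ → ℕ → Prop} {f f' : ℕ → ℝ}
    (hd : ∀ u v, d' (σ u) (σ v) = d u v) (hR : ∀ u v, R' (σ u) (σ v) ↔ R u v)
    (hf : ∀ u, f' (σ u) = f u) (x : ℕ) : st d' R' f' (σ x) = st d R f x := by
  have hex : (∃ u v, R' u v) ↔ ∃ u v, R u v := by
    constructor
    · rintro ⟨u, v, h⟩
      refine ⟨σ.symm u, σ.symm v, (hR _ _).1 ?_⟩
      rw [σ.apply_symm_apply, σ.apply_symm_apply]
      exact h
    · rintro ⟨u, v, h⟩
      exact ⟨σ u, σ v, (hR _ _).2 h⟩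
  have e1 : sp (fun i : ℕ × ℕ => R' i.1 i.2) (fun i => d' (σ x) i.1 - f' i.2) =
      sp (fun i : ℕ × ℕ => R i.1 i.2) fun i => d x i.1 - f i.2 :=
    sp_eq (σ.prodCongr σ) (fun i => hR _ _) fun i => by
      show d' (σ x) (σ i.1) - f' (σ i.2) = _
      rw [hd, hf]
  have e2 : cc d' R' f' = cc d R f :=
    sp_eq ((σ.prodCongr σ).prodCongr (σ.prodCongr σ)) (fun i => and_congr (hR _ _) (hR _ _))
      fun i => by
        show d' (σ i.1.2) (σ i.2.2) - f' (σ i.1.2) - f' (σ i.2.2) = _
        rw [hd, hf, hf]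
  unfold st
  rw [e1, e2, hf]
  by_cases h : ∃ u v, R u v
  · rw [if_pos h, if_pos (hex.2 h)]
  · rw [if_neg h, if_neg fun h' => h (hex.1 h')]

theorem rx_act (σ : Equiv.Perm ℕ) (x : US a2) (i u v : ℕ) :
    Rx (aU σ x) i (σ u) (σ v) ↔ Rx x i u v := by
  show x.1 i (⇑σ⁻¹ ∘ pr (σ u) (σ v)) = true ↔ _
  rw [comp_pr, show σ⁻¹ (σ u) = u from σ.symm_apply_apply u,
    show σ⁻¹ (σ v) = v from σ.symm_apply_apply v]
  exact Iff.rfl

theorem rj_act (σ : Equiv.Perm ℕ) (x : US a2) (j : ℕ × Bool) (u v : ℕ) :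
    Rj (aU σ x) j (σ u) (σ v) ↔ Rj x j u v := by
  unfold Rj
  rw [rx_act, rx_act]

theorem dd_act (q : ℕ → ℚ) (σ : Equiv.Perm ℕ) (x : US a2) (u v : ℕ) :
    dd q (aU σ x) (σ u) (σ v) = dd q x u v := by
  unfold dd
  simp only [rx_act]

theorem ff_act (q : ℕ → ℚ) (σ : Equiv.Perm ℕ) (x : US a2) (p : Fin 1 → ℕ)
    (w : List (ℕ × Bool)) : ∀ u, ff q (aU σ x, ⇑σ ∘ p) w (σ u) = ff q (x, p) w u := by
  induction w with
  | nil => exact fun u => dd_act q σ x u (p 0)
  | cons j w ih => exact fun u => st_eq σ (dd_act q σ x) (rj_act σ x j) ih u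

theorem er_act (q : ℕ → ℚ) (σ : Equiv.Perm ℕ) (x : US a2) (p : Fin 1 → ℕ) (r : ℚ) (u v : ℕ) :
    Er (dd q (aU σ x)) (ff q (aU σ x, ⇑σ ∘ p)) r (σ u) (σ v) ↔
      Er (dd q x) (ff q (x, p)) r u v := by
  unfold Er
  simp only [dd_act, ff_act, σ.injective.eq_iff]

/-! ### the class -/

/-- the class -/
structure Cl (q : ℕ → ℚ) (x : US a2) : Prop where
  tm : TM (dd q x)
  dist : ∀ i u v, Rx x (2 * i) u v ↔ dd q x u v < q i
  pi : ∀ i, PI (dd q x) (Rx x (2 * i + 1))

theorem bp_cl (q : ℕ → ℚ) : BP fun x : US a2 => Cl q x := by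
  have h : BP fun x : US a2 => ((∀ u v, dd q x u v = 0 ↔ u = v) ∧
      (∀ u v, dd q x u v = dd q x v u) ∧
      ∀ u v w z, dd q x u v + dd q x w z ≤
        max (dd q x u w + dd q x v z) (dd q x u z + dd q x v w)) ∧
      (∀ i u v, Rx x (2 * i) u v ↔ dd q x u v < q i) ∧
      ∀ i u v u' v', Rx x (2 * i + 1) u v → Rx x (2 * i + 1) u' v' →
        dd q x u u' = dd q x v v' :=
    ((BP.all fun u => BP.all fun v => (bp_eq (m_dd q u v) measurable_const).iff (BP.const _)).and <|
      (BP.all fun u => BP.all fun v => bp_eq (m_dd q u v) (m_dd q v u)).and <|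
      BP.all fun u => BP.all fun v => BP.all fun w => BP.all fun z =>
        bp_le ((m_dd q u v).add (m_dd q w z))
          (((m_dd q u w).add (m_dd q v z)).max ((m_dd q u z).add (m_dd q v w)))).and <|
    (BP.all fun i => BP.all fun u => BP.all fun v =>
      (bp_rx _ _ _).iff (bp_lt (m_dd q u v) measurable_const)).and <|
    BP.all fun i => BP.all fun u => BP.all fun v => BP.all fun u' => BP.all fun v' =>
      (bp_rx _ _ _).imp <| (bp_rx _ _ _).imp <| bp_eq (m_dd q u u') (m_dd q v v')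
  exact h.congr fun x => ⟨fun h => ⟨⟨h.1.1, h.1.2.1, h.1.2.2⟩, h.2.1, h.2.2⟩,
    fun h => ⟨⟨h.tm.zero, h.tm.symm, h.tm.four⟩, h.dist, h.pi⟩⟩

theorem dd_of {q : ℕ → ℚ} (hq : Function.Surjective q) {x : US a2} {d : ℕ → ℕ → ℝ}
    (h : ∀ i u v, Rx x (2 * i) u v ↔ d u v < q i) : dd q x = d := by
  funext u v
  obtain ⟨r0, hr0⟩ := exists_rat_gt (d u v)
  obtain ⟨i0, rfl⟩ := hq r0
  obtain ⟨h1, h2⟩ := sp_lub (S := fun i => Rx x (2 * i) u v) (g := fun i => -(q i : ℝ))
    (i0 := i0) ((h _ _ _).2 hr0) (b := -d u v) fun i hi => by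
      have := (h _ _ _).1 hi
      linarith
  have h3 : -d u v ≤ sp (fun i => Rx x (2 * i) u v) fun i => -(q i : ℝ) := by
    by_contra hcon
    push Not at hcon
    obtain ⟨r, hr1, hr2⟩ := exists_rat_btwn (show d u v <
      -sp (fun i => Rx x (2 * i) u v) fun i => -(q i : ℝ) by linarith)
    obtain ⟨i, rfl⟩ := hq r
    have := h1 i ((h _ _ _).2 hr1)
    linarith
  have h4 := h2 (-d u v) fun i hi => by
    have := (h _ _ _).1 hi
    linarith
  unfold dd
  linarith

section cl

variable {q : ℕ → ℚ} {x : US a2} (h : Cl q x) (p : Fin 1 → ℕ)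

include h

theorem pi_rj (j : ℕ × Bool) : PI (dd q x) (Rj x j) := by
  rintro u v u' v' (⟨k1, k2⟩ | ⟨k1, k2⟩) (⟨k3, k4⟩ | ⟨k3, k4⟩)
  · exact h.pi _ _ _ _ _ k2 k4
  · rw [k1] at k3
    exact absurd k3 (by decide)
  · rw [k1] at k3
    exact absurd k3 (by decide)
  · exact (h.pi _ _ _ _ _ k2 k4).symm

theorem op_ff (w : List (ℕ × Bool)) : OP (dd q x) (ff q (x, p) w) := by
  induction w with
  | nil =>
    constructor
    · exact fun u v => h.tm.tri u v (p 0)
    · intro u v w
      have h1 := h.tm.four u w v (p 0)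
      rw [h.tm.symm w v, add_comm (dd q x u (p 0))] at h1
      exact h1
  | cons j w ih => exact op_st h.tm ih (pi_rj h j)

theorem ff_val {j : ℕ × Bool} {w : List (ℕ × Bool)} {u v : ℕ} (k : Rj x j u v) :
    ff q (x, p) (j :: w) u = ff q (x, p) w v :=
  st_val h.tm (op_ff h p w) (pi_rj h j) k

theorem iso_er {r : ℚ} {i u v u' v' : ℕ} (k : Rx x (2 * i + 1) u v)
    (k' : Rx x (2 * i + 1) u' v') :
    Er (dd q x) (ff q (x, p)) r u u' ↔ Er (dd q x) (ff q (x, p)) r v v' :=
  er_iso h.tm (h.pi i) (fun w => ⟨(i, true) :: w, fun _ _ hk => ff_val h p (Or.inl ⟨rfl, hk⟩)⟩)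
    (fun w => ⟨(i, false) :: w, fun _ _ hk => ff_val h p (Or.inr ⟨rfl, hk⟩)⟩) k k'

end cl

/-! ### the coding -/

/-- an enumeration of the words -/
noncomputable def en : ℕ → List (ℕ × Bool) := (exists_surjective_nat (List (ℕ × Bool))).choose

theorem en_surj : Function.Surjective en :=
  (exists_surjective_nat (List (ℕ × Bool))).choose_spec

open Classical in
/-- the relations of the coded structure -/
noncomputable def c1 (q : ℕ → ℚ) (y : YP) : RS a2 := fun i (v : Fin 2 → ℕ) =>
  if i % 2 = 0 then decide (Er (dd q y.1) (ff q y) (q (i / 2)) (v 0) (v 1)) else y.1.1 i v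

open Classical in
/-- the unary predicates of the coded structure -/
noncomputable def c2 (q : ℕ → ℚ) (y : YP) (n u : ℕ) : Bool :=
  if (Nat.unpair n).1 = 0 then y.1.2 (Nat.unpair n).2 u
  else decide (ff q y (en ((Nat.unpair n).1 - 1)) u < q (Nat.unpair n).2)

/-- the coding -/
noncomputable def co (q : ℕ → ℚ) (y : YP) : US a2 := (c1 q y, c2 q y)

theorem m_co (q : ℕ → ℚ) : Measurable (co q) := by
  classical
  refine Measurable.prodMk ?_ ?_
  · refine measurable_pi_lambda _ fun i => measurable_pi_lambda _ fun (v : Fin 2 → ℕ) =>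
      measurable_to_bool ?_
    by_cases hi : i % 2 = 0
    · have h := bp_er (Y := YP) (m_dd' q) (F := fun y => ff q y) (fun w u => m_ff q w u)
        (q (i / 2)) (v 0) (v 1)
      refine h.congr fun y => ?_
      show _ ↔ (if i % 2 = 0 then decide (Er (dd q y.1) (ff q y) (q (i / 2)) (v 0) (v 1))
        else y.1.1 i v) = true
      rw [if_pos hi, decide_eq_true_iff]
    · have h0 : Measurable fun y : YP => y.1.1 i v :=
        (measurable_pi_apply v).comp ((measurable_pi_apply i).comp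
          (measurable_fst.comp measurable_fst))
      have h : BP fun y : YP => y.1.1 i v = true := h0 (measurableSet_singleton true)
      refine h.congr fun y => ?_
      show _ ↔ (if i % 2 = 0 then decide (Er (dd q y.1) (ff q y) (q (i / 2)) (v 0) (v 1))
        else y.1.1 i v) = true
      rw [if_neg hi]
  · refine measurable_pi_lambda _ fun n => measurable_pi_lambda _ fun u => measurable_to_bool ?_
    by_cases hn : (Nat.unpair n).1 = 0
    · have h0 : Measurable fun y : YP => y.1.2 (Nat.unpair n).2 u :=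
        (measurable_pi_apply u).comp ((measurable_pi_apply _).comp
          (measurable_snd.comp measurable_fst))
      have h : BP fun y : YP => y.1.2 (Nat.unpair n).2 u = true :=
        h0 (measurableSet_singleton true)
      refine h.congr fun y => ?_
      show _ ↔ (if (Nat.unpair n).1 = 0 then y.1.2 (Nat.unpair n).2 u
        else decide (ff q y (en ((Nat.unpair n).1 - 1)) u < q (Nat.unpair n).2)) = true
      rw [if_pos hn]
    · have h : BP fun y : YP => ff q y (en ((Nat.unpair n).1 - 1)) u < q (Nat.unpair n).2 :=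
        bp_lt (m_ff q _ u) measurable_const
      refine h.congr fun y => ?_
      show _ ↔ (if (Nat.unpair n).1 = 0 then y.1.2 (Nat.unpair n).2 u
        else decide (ff q y (en ((Nat.unpair n).1 - 1)) u < q (Nat.unpair n).2)) = true
      rw [if_neg hn, decide_eq_true_iff]

theorem co_act (q : ℕ → ℚ) (σ : Equiv.Perm ℕ) (x : US a2) (p : Fin 1 → ℕ) :
    co q (aU σ x, ⇑σ ∘ p) = aU σ (co q (x, p)) := by
  classical
  have ei : ∀ u, σ (σ⁻¹ u) = u := fun u => σ.apply_symm_apply u
  refine Prod.ext ?_ ?_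
  · funext i (v : Fin 2 → ℕ)
    show (if i % 2 = 0 then decide (Er (dd q (aU σ x)) (ff q (aU σ x, ⇑σ ∘ p)) (q (i / 2))
      (v 0) (v 1)) else x.1 i (⇑σ⁻¹ ∘ v)) = if i % 2 = 0 then
        decide (Er (dd q x) (ff q (x, p)) (q (i / 2)) (σ⁻¹ (v 0)) (σ⁻¹ (v 1)))
        else x.1 i (⇑σ⁻¹ ∘ v)
    split_ifs with hi
    · rw [decide_eq_decide]
      have h := er_act q σ x p (q (i / 2)) (σ⁻¹ (v 0)) (σ⁻¹ (v 1))
      rw [ei, ei] at h
      exact h
    · rfl
  · funext n u
    show (if (Nat.unpair n).1 = 0 then x.2 (Nat.unpair n).2 (σ⁻¹ u)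
        else decide (ff q (aU σ x, ⇑σ ∘ p) (en ((Nat.unpair n).1 - 1)) u < q (Nat.unpair n).2)) =
      if (Nat.unpair n).1 = 0 then x.2 (Nat.unpair n).2 (σ⁻¹ u)
        else decide (ff q (x, p) (en ((Nat.unpair n).1 - 1)) (σ⁻¹ u) < q (Nat.unpair n).2)
    split_ifs with hn
    · rfl
    · rw [decide_eq_decide]
      have h := ff_act q σ x p (en ((Nat.unpair n).1 - 1)) (σ⁻¹ u)
      rw [ei] at h
      rw [h]

/-- the kinds of the relations -/
def kd (i : ℕ) : Kd := if i % 2 = 0 then Kd.lev else Kd.mp none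

open Classical in
/-- the levels -/
def lv (q : ℕ → ℚ) (y : YP) : Option ℚ → ℕ → ℕ → Prop
  | none => Eq
  | some r => Er (dd q y.1) (ff q y) r

theorem vg_co {q : ℕ → ℚ} {x : US a2} (h : Cl q x) (p : Fin 1 → ℕ) :
    VG kd a2 (co q (x, p)).1 := by
  classical
  have hk0 : ∀ i, i % 2 = 0 → kd i = Kd.lev := fun i hi => if_pos hi
  have hk1 : ∀ i, ¬ i % 2 = 0 → kd i = Kd.mp none := fun i hi => if_neg hi
  have hr0 : ∀ i u v, i % 2 = 0 → ((co q (x, p)).1 i (pr u v) = true ↔
      Er (dd q x) (ff q (x, p)) (q (i / 2)) u v) := by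
    intro i u v hi
    show (if i % 2 = 0 then decide (Er (dd q x) (ff q (x, p)) (q (i / 2)) u v) else
      x.1 i (pr u v)) = true ↔ _
    rw [if_pos hi, decide_eq_true_iff]
  have hr1 : ∀ i u v, ¬ i % 2 = 0 → ((co q (x, p)).1 i (pr u v) = true ↔ Rx x i u v) := by
    intro i u v hi
    show (if i % 2 = 0 then decide (Er (dd q x) (ff q (x, p)) (q (i / 2)) u v) else
      x.1 i (pr u v)) = true ↔ _
    rw [if_neg hi]
    exact Iff.rfl
  let τ : Option ℕ → Option ℚ := fun e => match e with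
    | none => none
    | some k => if k % 2 = 0 then some (q (k / 2)) else none
  have hop : ∀ w, OP (dd q x) (ff q (x, p) w) := fun w => op_ff h p w
  have hsy : ∀ r u v, Er (dd q x) (ff q (x, p)) r u v → Er (dd q x) (ff q (x, p)) r v u :=
    fun r u v => er_symm h.tm
  refine good_of (s := lv q (x, p)) (K := kd) (x := (bn (co q (x, p)).1, fun _ _ => false)) τ
    ?_ ?_ ?_ ?_ ?_
  · intro e
    cases e with
    | none => rfl
    | some k =>
      funext m n
      show ((kd k = Kd.lev ∧ (co q (x, p)).1 k (pr m n) = true) ∨ (kd k ≠ Kd.lev ∧ m = n)) =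
        lv q (x, p) (if k % 2 = 0 then some (q (k / 2)) else none) m n
      by_cases hk : k % 2 = 0
      · rw [if_pos hk, hr0 k m n hk, hk0 k hk]
        show (_ ∨ _) = Er (dd q x) (ff q (x, p)) (q (k / 2)) m n
        simp
      · rw [if_neg hk, hk1 k hk]
        show (_ ∨ _) = (m = n)
        simp
  · intro e
    cases e with
    | none => exact ⟨fun _ => rfl, fun _ _ _ k1 k2 => k1.trans k2, fun _ _ _ k1 k2 =>
        Or.inl (k1.trans k2.symm)⟩
    | some r => exact ⟨fun m => er_refl r m, fun m n k k1 k2 => er_trans hop k1 k2,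
        fun m n k k1 k2 => Or.inl (er_trans hop k1 (hsy _ _ _ k2))⟩
  · intro e e'
    cases e with
    | none =>
      cases e' with
      | none => exact Or.inl rfl
      | some r =>
        refine Or.inr (Or.inl ?_)
        rintro m n (rfl : m = n)
        exact ⟨er_refl r m, er_refl r m⟩
    | some r =>
      cases e' with
      | none =>
        refine Or.inr (Or.inr ?_)
        rintro m n (rfl : m = n)
        exact ⟨er_refl r m, er_refl r m⟩
      | some r' =>
        rcases le_total r r' with hrr | hrr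
        · exact Or.inr (Or.inr fun m n hmn => ⟨er_le hrr hmn, er_le hrr (hsy _ _ _ hmn)⟩)
        · exact Or.inr (Or.inl fun m n hmn => ⟨er_le hrr hmn, er_le hrr (hsy _ _ _ hmn)⟩)
  · intro j e he
    have hj : ¬ j % 2 = 0 := by
      intro hj
      rw [hk0 j hj] at he
      exact Kd.noConfusion he
    rw [hk1 j hj] at he
    obtain rfl := (Kd.mp.inj he).symm
    have hj' : j = 2 * (j / 2) + 1 := by omega
    have hR : ∀ u v, Pool.Agent.H2.VC.Re (bn (co q (x, p)).1, fun _ _ => false) j u v ↔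
        Rx x (2 * (j / 2) + 1) u v := by
      intro u v
      rw [← hj']
      exact hr1 j u v hj
    refine ⟨?_, fun k _ => ⟨?_, ?_, ?_⟩⟩
    · rintro u v u' v' k1 ⟨k2, -⟩ ⟨k3, -⟩
      have e2 : u = u' := k2
      have e3 : v = v' := k3
      rw [← e2, ← e3]
      exact k1
    · intro u v u' v' k1 k2
      rw [hR] at k1 k2
      cases k with
      | none =>
        show u = u' ↔ v = v'
        rw [← h.tm.zero, ← h.tm.zero, h.pi _ u v u' v' k1 k2]
      | some r => exact iso_er h p k1 k2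
    · intro u v w k1 k2
      refine ⟨u, v, ?_, k1⟩
      cases k with
      | none =>
        have e : w = u := k2
        rw [e]
        exact ⟨rfl, rfl⟩
      | some r => exact ⟨k2, hsy _ _ _ k2⟩
    · intro u v w k1 k2
      refine ⟨u, v, ?_, k1⟩
      cases k with
      | none =>
        have e : w = v := k2
        rw [e]
        exact ⟨rfl, rfl⟩
      | some r => exact ⟨k2, hsy _ _ _ k2⟩
  · intro i hi
    by_cases hk : i % 2 = 0
    · rw [hk0 i hk] at hi
      exact Kd.noConfusion hi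
    · rw [hk1 i hk] at hi
      exact Kd.noConfusion hi

/-- **Theorem.** -/
theorem vcu_tree {q : ℕ → ℚ} (hq : Function.Surjective q) : VCu fun x : RS a2 =>
    ∃ d : ℕ → ℕ → ℝ, TM d ∧ (∀ i u v, x (2 * i) (pr u v) = true ↔ d u v < q i) ∧
      ∀ i, PI d fun u v => x (2 * i + 1) (pr u v) = true := by
  classical
  intro B hB hBi hBV
  have hP : PolishSpace YP := {}
  have hBo : BorelSpace YP := Prod.borelSpace
  have hCl : ∀ x ∈ B, Cl q x := by
    intro x hx
    obtain ⟨d, h1, h2, h3⟩ := hBV x hx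
    have e : dd q x = d := dd_of hq h2
    subst e
    exact ⟨h1, h2, h3⟩
  have hBi' : ∀ x ∈ B, ∀ σ : Equiv.Perm ℕ, aU σ x ∈ B := fun x hx σ =>
    (hBi x (aU σ x) ((uiso_iff _ _).2 ⟨σ, rfl⟩)).1 hx
  let D : Set YP := Prod.fst ⁻¹' B
  have hD : MeasurableSet D := measurable_fst hB
  have hDi : ∀ x p, (x, p) ∈ D → ∀ σ : Equiv.Perm ℕ, (aU σ x, ⇑σ ∘ p) ∈ D :=
    fun x p hx σ => hBi' x hx σ
  have hun : ∀ (y : YP) (w : List (ℕ × Bool)) (i u : ℕ), ∃ n,
      ((co q y).2 n u = true ↔ ff q y w u < q i) := by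
    intro y w i u
    obtain ⟨m, rfl⟩ := en_surj w
    refine ⟨Nat.pair (m + 1) i, ?_⟩
    show (if (Nat.unpair (Nat.pair (m + 1) i)).1 = 0 then _ else decide (ff q y
      (en ((Nat.unpair (Nat.pair (m + 1) i)).1 - 1)) u < q (Nat.unpair (Nat.pair (m + 1) i)).2)) =
      true ↔ _
    rw [Nat.unpair_pair]
    rw [if_neg (Nat.succ_ne_zero m), decide_eq_true_iff]
    exact Iff.rfl
  have hinj : InjOn (co q) D := by
    rintro ⟨x, p⟩ hx ⟨y, p'⟩ hy e
    have hx' := hCl x hx
    have hy' := hCl y hy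
    have e1 := congrArg Prod.fst e
    have e2 := congrArg Prod.snd e
    -- the one-point extensions
    have hff : ∀ w u, ff q (x, p) w u = ff q (y, p') w u := by
      intro w u
      have key : ∀ i, ff q (x, p) w u < q i ↔ ff q (y, p') w u < q i := by
        intro i
        obtain ⟨m, rfl⟩ := en_surj w
        have k1 := congrFun (congrFun e2 (Nat.pair (m + 1) i)) u
        have k2 : (if (Nat.unpair (Nat.pair (m + 1) i)).1 = 0 then
            x.2 (Nat.unpair (Nat.pair (m + 1) i)).2 u else decide (ff q (x, p)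
            (en ((Nat.unpair (Nat.pair (m + 1) i)).1 - 1)) u <
            q (Nat.unpair (Nat.pair (m + 1) i)).2)) =
          if (Nat.unpair (Nat.pair (m + 1) i)).1 = 0 then
            y.2 (Nat.unpair (Nat.pair (m + 1) i)).2 u else decide (ff q (y, p')
            (en ((Nat.unpair (Nat.pair (m + 1) i)).1 - 1)) u <
            q (Nat.unpair (Nat.pair (m + 1) i)).2) := k1
        rw [Nat.unpair_pair] at k2
        rw [if_neg (Nat.succ_ne_zero m), if_neg (Nat.succ_ne_zero m), decide_eq_decide] at k2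
        exact k2
      refine le_antisymm ?_ ?_
      · by_contra hcon
        push Not at hcon
        obtain ⟨r, hr1, hr2⟩ := exists_rat_btwn hcon
        obtain ⟨i, rfl⟩ := hq r
        have := (key i).2 hr1
        linarith
      · by_contra hcon
        push Not at hcon
        obtain ⟨r, hr1, hr2⟩ := exists_rat_btwn hcon
        obtain ⟨i, rfl⟩ := hq r
        have := (key i).1 hr1
        linarith
    have hff' : ff q (x, p) = ff q (y, p') := funext fun w => funext fun u => hff w u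
    -- the equivalence relations
    have hEr : ∀ r u v, Er (dd q x) (ff q (x, p)) r u v ↔ Er (dd q y) (ff q (x, p)) r u v := by
      intro r u v
      obtain ⟨i, rfl⟩ := hq r
      have k1 := congrFun (congrFun e1 (2 * i)) (![u, v] : Fin 2 → ℕ)
      have k2 : (if 2 * i % 2 = 0 then decide (Er (dd q x) (ff q (x, p)) (q (2 * i / 2)) u v)
          else x.1 (2 * i) ![u, v]) = if 2 * i % 2 = 0 then
            decide (Er (dd q y) (ff q (y, p')) (q (2 * i / 2)) u v) else y.1 (2 * i) ![u, v] := k1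
      have e0 : 2 * i % 2 = 0 := by omega
      have e3 : 2 * i / 2 = i := by omega
      rw [if_pos e0, if_pos e0, e3, decide_eq_decide, ← hff'] at k2
      exact k2
    have hdd : dd q x = dd q y := by
      funext u v
      refine le_antisymm ?_ ?_
      · exact det_le hx'.tm hy'.tm [] (fun w => op_ff hx' p w)
          (fun r u v => (hEr r u v).2) u v
      · refine det_le (F := ff q (x, p)) hy'.tm hx'.tm [] (fun w => ?_)
          (fun r u v => (hEr r u v).1) u v
        rw [hff']
        exact op_ff hy' p' w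
    have hpp : p = p' := by
      have h1 := hff [] (p 0)
      have h2 : dd q x (p 0) (p 0) = dd q y (p 0) (p' 0) := h1
      rw [hx'.tm.self, eq_comm, hy'.tm.zero] at h2
      funext i
      rw [Subsingleton.elim i 0]
      exact h2
    have hx1 : x.1 = y.1 := by
      funext i (v : Fin 2 → ℕ)
      by_cases hi : i % 2 = 0
      · have h1 := hx'.dist (i / 2) (v 0) (v 1)
        have h2 := hy'.dist (i / 2) (v 0) (v 1)
        rw [← hdd, ← h1] at h2
        have hi' : 2 * (i / 2) = i := by omega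
        have hv : (pr (v 0) (v 1) : Fin 2 → ℕ) = v := by
          funext j
          fin_cases j <;> rfl
        have h3 : y.1 i (pr (v 0) (v 1)) = true ↔ x.1 i (pr (v 0) (v 1)) = true := by
          have := h2
          unfold Rx at this
          rw [hi'] at this
          exact this
        rw [hv] at h3
        exact (Bool.eq_iff_iff.2 h3).symm
      · have k1 := congrFun (congrFun e1 i) v
        have k2 : (if i % 2 = 0 then decide (Er (dd q x) (ff q (x, p)) (q (i / 2)) (v 0) (v 1))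
            else x.1 i v) = if i % 2 = 0 then
              decide (Er (dd q y) (ff q (y, p')) (q (i / 2)) (v 0) (v 1)) else y.1 i v := k1
        rw [if_neg hi, if_neg hi] at k2
        exact k2
    have hx2 : x.2 = y.2 := by
      funext j u
      have k1 := congrFun (congrFun e2 (Nat.pair 0 j)) u
      have k2 : (if (Nat.unpair (Nat.pair 0 j)).1 = 0 then x.2 (Nat.unpair (Nat.pair 0 j)).2 u
          else decide (ff q (x, p) (en ((Nat.unpair (Nat.pair 0 j)).1 - 1)) u <
            q (Nat.unpair (Nat.pair 0 j)).2)) =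
        if (Nat.unpair (Nat.pair 0 j)).1 = 0 then y.2 (Nat.unpair (Nat.pair 0 j)).2 u
          else decide (ff q (y, p') (en ((Nat.unpair (Nat.pair 0 j)).1 - 1)) u <
            q (Nat.unpair (Nat.pair 0 j)).2) := k1
      rw [Nat.unpair_pair] at k2
      rw [if_pos rfl, if_pos rfl] at k2
      exact k2
    exact Prod.ext (Prod.ext hx1 hx2) hpp
  have key := par (Y := US a2) (Z := US a2) 1 (act_U a2) (ana_U a2) D hD hDi (co q) (m_co q)
    (fun σ x p => co_act q σ x p) hinj ?_
  · have e : {x | ∃ p : Fin 1 → ℕ, (x, p) ∈ D} = B := by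
      ext x
      exact ⟨fun ⟨_, h1⟩ => h1, fun hx => ⟨fun _ => 0, hx⟩⟩
    rw [e, dicho_U] at key
    exact key
  · rw [dicho_U]
    apply vcu kd (a := a2) (fun _ => le_refl 2)
    · exact hD.image_of_measurable_injOn (m_co q) hinj
    · have h1 : ∀ x y, UIso x y → x ∈ co q '' D → y ∈ co q '' D := by
        rintro x y hxy ⟨⟨z, p⟩, hz, rfl⟩
        obtain ⟨σ, rfl⟩ := (uiso_iff _ _).1 hxy
        exact ⟨(aU σ z, ⇑σ ∘ p), hDi z p hz σ, co_act q σ z p⟩
      intro x y hxy
      refine ⟨h1 x y hxy, h1 y x ?_⟩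
      obtain ⟨σ, rfl⟩ := (uiso_iff _ _).1 hxy
      exact (uiso_iff _ _).2 ⟨σ⁻¹, ((act_U a2).inv_apply σ x).symm⟩
    · rintro _ ⟨⟨x, p⟩, hx, rfl⟩
      exact vg_co (hCl x hx) p

end Pool.Agent.H2.TR
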